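import Pool.Agent.H90.RseProof

set_option autoImplicit false

namespace Pool.Agent.Results.MP_2e9c83_an.RseToAse

open Pool.Agent.H90.AseDefs

universe u

/-- Every universal BPBp-RSE domain is a universal BPBp-ASE domain. -/
theorem result (𝕜 : Type) [RCLike 𝕜] (X : Type u) [NormedAddCommGroup X] [NormedSpace 𝕜 X]
    [CompleteSpace X]
    (h : ∀ (Z : Type u) [NormedAddCommGroup Z] [NormedSpace 𝕜 Z] [CompleteSpace Z],
      BPBpRSE 𝕜 X Z)
    (Z : Type u) [NormedAddCommGroup Z] [NormedSpace 𝕜 Z] [CompleteSpace Z] : BPBpASE 𝕜 X Z :=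
  Pool.Agent.H90.RseProof.main (h _)

end Pool.Agent.Results.MP_2e9c83_an.RseToAse
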